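import Pool.Agent.Lib.MP_b07157_agSY.Main
import Pool.Agent.Lib.MP_b07157_agSS.Three

/-!
# Sums of polynomials of degree at most three in three variables and one-variable polynomials
-/

noncomputable section

namespace MPb07157

open MvPolynomial

namespace SS

variable {n k r : ℕ}

/-! ### Changes of coordinates -/

theorem linEq_sh {g g' : MvPolynomial (Fin n) ℂ} (hg : CS.LinEq g g')
    (h : Fin r → Polynomial ℂ) : CS.LinEq (sh g h) (sh g' h) := by
  obtain ⟨E, hE⟩ := hg
  refine ⟨C3.extE E, fun w => ?_⟩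
  show eval (C3.ext E w) (sh g h) = eval w (sh g' h)
  rw [eval_sh, eval_sh, ← hE]
  refine congrArg₂ _ ?_ (Finset.sum_congr rfl fun i _ => ?_)
  · rw [show (fun i => C3.ext E w (Fin.castAdd r i)) = E fun i => w (Fin.castAdd r i) from
      _root_.funext fun i => C3.ext_castAdd E w i]
  · rw [C3.ext_natAdd]

theorem linEq_add_C {g g' : MvPolynomial (Fin n) ℂ} (hg : CS.LinEq g g') (c : ℂ) :
    CS.LinEq (g + C c) (g' + C c) := by
  obtain ⟨E, hE⟩ := hg
  refine ⟨E, fun w => ?_⟩
  rw [map_add, map_add, hE, eval_C, eval_C]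

theorem translate_sh (g : MvPolynomial (Fin n) ℂ) (h : Fin r → Polynomial ℂ) (p : Fin n → ℂ) :
    translate (Fin.append p 0) (sh g h) = sh (translate p g) h := by
  refine MvPolynomial.funext fun x => ?_
  rw [D5.eval_translate', eval_sh, eval_sh, D5.eval_translate']
  refine congrArg₂ _ ?_ (Finset.sum_congr rfl fun i _ => ?_)
  · congr 2
    funext i
    rw [Pi.add_apply, Pi.add_apply, Fin.append_left]
  · rw [Pi.add_apply, Fin.append_right, Pi.zero_apply, add_zero]

/-! ### Polynomials in fewer variables -/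

theorem tau_inj {σ : Fin k → Fin n} (hσ : Function.Injective σ) :
    Function.Injective (Fin.append (fun j => Fin.castAdd r (σ j)) (fun i => Fin.natAdd n i) :
      Fin (k + r) → Fin (n + r)) := by
  intro a b
  refine Fin.addCases (fun a => ?_) (fun a => ?_) a <;>
    refine Fin.addCases (fun b => ?_) (fun b => ?_) b
  · rw [Fin.append_left, Fin.append_left]
    intro h
    rw [hσ (Fin.castAdd_injective n r h)]
  · rw [Fin.append_left, Fin.append_right]
    intro h
    exact absurd h.symm (natAdd_ne_castAdd b (σ a))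
  · rw [Fin.append_left, Fin.append_right]
    intro h
    exact absurd h (natAdd_ne_castAdd a (σ b))
  · rw [Fin.append_right, Fin.append_right]
    intro h
    have := congrArg Fin.val h
    simp at this
    rw [Fin.ext this]

theorem triv_sh {g : MvPolynomial (Fin k) ℂ} {σ : Fin k → Fin n} (hσ : Function.Injective σ)
    (h : Fin r → Polynomial ℂ) (z : Fin r → ℂ) :
    TrivAlong (sh (rename σ g) h) (zt {p | ∀ j, p (σ j) = 0} z)
      (translate (Fin.append 0 z) (sh g h)) := by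
  classical
  refine ⟨Fin.append (fun j => X (Fin.castAdd r (σ j))) (fun i => X (Fin.natAdd n i) - C (z i)),
    1, 1, 1, fun x _ => ?_, ?_⟩
  · rw [map_one, one_mul, one_mul, eval_sh, D5.eval_translate', eval_sh, eval_rename]
    refine congrArg₂ _ ?_ (Finset.sum_congr rfl fun i _ => ?_)
    · congr 2
      funext j
      rw [Pi.add_apply, Fin.append_left, Fin.append_left, eval_X, div_one]
      simp
    · rw [Pi.add_apply, Fin.append_right, Fin.append_right, map_sub, eval_X, eval_C, div_one,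
        sub_add_cancel]
  · rintro p ⟨hp1, hp2⟩
    refine ⟨by rw [map_one]; exact one_ne_zero, by rw [map_one]; exact one_ne_zero,
      by rw [map_one]; exact one_ne_zero, fun j => ?_, ?_⟩
    · refine Fin.addCases (fun j => ?_) (fun i => ?_) j
      · rw [Fin.append_left, eval_X]
        exact hp1 j
      · rw [Fin.append_right, map_sub, eval_X, eval_C, hp2 i, sub_self]
    · have hl := (Pi.basisFun ℂ (Fin (n + r))).linearIndependent.comp _ (tau_inj (r := r) hσ)
      convert hl using 1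
      funext j l
      rw [Function.comp_apply, Pi.basisFun_apply]
      have hX : ∀ i : Fin (n + r), eval p (pderiv l (X i)) = (Pi.single i (1 : ℂ) : Fin (n + r) → ℂ) l := by
        intro i
        rw [pderiv_X]
        by_cases hl : i = l
        · rw [hl, Pi.single_eq_same, Pi.single_eq_same, map_one]
        · rw [Pi.single_eq_of_ne hl, Pi.single_eq_of_ne (Ne.symm hl), map_zero]
      refine Fin.addCases (fun j => ?_) (fun i => ?_) j
      · rw [Fin.append_left, Fin.append_left]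
        exact hX _
      · rw [Fin.append_right, Fin.append_right, map_sub, pderiv_C, sub_zero]
        exact hX _

/-! ### Cubic forms -/

/-- The global version, with the points where the Hessian matrix vanishes in `W`. -/
theorem smcGlob_sh_strata {c : MvPolynomial (Fin 3) ℂ} {γ : ℂ} {h : Fin r → Polynomial ℂ}
    (hh : ∀ i, 0 < (h i).natDegree) (hne : sh (c + C γ) h ≠ 0) {W : Set (Fin 3 → ℂ)}
    (hW : IsConstr W) (hm : ∀ z : Fin r → ℂ, (∀ i, (Polynomial.derivative (h i)).eval (z i) = 0) →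
      γ + ∑ i, (h i).eval (z i) = 0 → MonoAlong (sh (c + C γ) h) (zt W z))
    (hH : ∀ p, YG.hessAt c p = 0 → p ∈ W ∧ eval p c = 0) : SmcGlob (sh (c + C γ) h) := by
  refine SmcGlob.of_sumM (by norm_num) hh hne (T := (fun z => zt W z) ''
    {z : Fin r → ℂ | (∀ i, (Polynomial.derivative (h i)).eval (z i) = 0) ∧
      γ + ∑ i, (h i).eval (z i) = 0})
    (((finite_crit hh).subset fun z hz => hz.1).image _) ?_ fun p z h1 _ h3 => ?_
  · rintro _ ⟨z, ⟨hz1, hz2⟩, rfl⟩
    exact ⟨isConstr_zt hW z, hm z hz1 hz2⟩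
  · rw [hessAt_add_C]
    by_cases hp : YG.hessAt c p = 0
    · obtain ⟨hpW, hp0⟩ := hH p hp
      refine Or.inl ⟨_, ⟨z, ⟨h3, ?_⟩, rfl⟩, mem_zt hpW z⟩
      rw [map_add, hp0, zero_add, eval_C] at h1
      exact h1
    · right
      have := SE3.one_le_rank hp
      omega

theorem smcGlob_sh_point {c : MvPolynomial (Fin 3) ℂ} (hc : c.IsHomogeneous 3) {γ : ℂ}
    {h : Fin r → Polynomial ℂ} (hh : ∀ i, 0 < (h i).natDegree) (hne : sh (c + C γ) h ≠ 0)
    (hloc : ∀ m : Fin r → ℕ, (∀ i, 2 ≤ m i) → sg c m ≠ 0 → SmcLoc (sg c m))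
    (hH : ∀ p, YG.hessAt c p = 0 → p = 0) : SmcGlob (sh (c + C γ) h) := by
  refine smcGlob_sh_strata hh hne (W := {0}) (isConstr_point 0) (fun z hz1 hz2 => ?_) fun p hp => ?_
  · rw [zt_singleton]
    refine MonoAlong.of_point hne fun _ _ => smcLoc_sh hh hne hz1 fun m hm hne' => ?_
    have e1 : translate 0 (c + C γ + C (∑ i, (h i).eval (z i))) = c := by
      rw [translate_zero, add_assoc, ← C_add, hz2, C_0, add_zero]
    rw [e1] at hne' ⊢
    exact hloc m hm hne'
  · obtain rfl := hH p hp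
    refine ⟨rfl, ?_⟩
    rw [← hev]
    exact hc.coeff_eq_zero (by simp)

theorem smcGlob_sh_sqh {c : MvPolynomial (Fin 3) ℂ} {γ : ℂ} {h : Fin r → Polynomial ℂ}
    (hh : ∀ i, 0 < (h i).natDegree) (hne : sh (c + C γ) h ≠ 0) {W : Set (Fin 3 → ℂ)}
    (hW : IsConstr W) {k : ℕ} {w : Fin k → ℕ} {N : ℕ} (hs : SqhAlong c W w N)
    (hH : ∀ p, YG.hessAt c p = 0 → p ∈ W ∧ eval p c = 0) : SmcGlob (sh (c + C γ) h) := by
  refine smcGlob_sh_strata hh hne hW (fun z hz1 hz2 => ?_) hH
  choose m q hm hq he hm2 using fun i => exists_factor (hh i) (z i)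
  have e1 : c + C γ + C (∑ i, (h i).eval (z i)) = c := by
    rw [add_assoc, ← C_add, hz2, C_0, add_zero]
  have hsu := sh_eq_su (c + C γ) he
  rw [e1] at hsu
  rw [hsu] at hne ⊢
  refine MonoAlong.of_sqhAlong hne (sqhAlong_sum hs (fun i => hm2 i (hz1 i)) ?_)
  rintro x ⟨-, hx⟩ i
  rw [eval_aevalX, hx i]
  exact hq i

theorem cV_eq : CR.cV = rename (![0, 2] : Fin 2 → Fin 3) (X 0 ^ 2 * X 1) := by
  unfold CR.cV
  simp

theorem smcGlob_sh_cV {γ : ℂ} {h : Fin r → Polynomial ℂ} (hh : ∀ i, 0 < (h i).natDegree)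
    (hne : sh (CR.cV + C γ) h ≠ 0) : SmcGlob (sh (CR.cV + C γ) h) := by
  have hσ : Function.Injective (![0, 2] : Fin 2 → Fin 3) := by decide
  have e1 : CR.cV + C γ = rename (![0, 2] : Fin 2 → Fin 3) (X 0 ^ 2 * X 1 + C γ) := by
    rw [map_add, rename_C, cV_eq]
  have e2 : {p : Fin 3 → ℂ | ∀ j, p ((![0, 2] : Fin 2 → Fin 3) j) = 0} =
      {p | p 0 = 0 ∧ p 2 = 0} := by
    ext p
    simp [Fin.forall_fin_two]
  refine smcGlob_sh_strata hh hne (W := {p | p 0 = 0 ∧ p 2 = 0}) isConstr_02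
    (fun z hz1 hz2 => ?_) fun p hp => ⟨hess_cV hp, ?_⟩
  · have ht := triv_sh hσ (g := X 0 ^ 2 * X 1 + C γ) h z
    rw [← e1, e2] at ht
    refine MonoAlong.of_trivAlong hne ht fun h1 _ => ?_
    have hne2 : sh (X 0 ^ 2 * X 1 + C γ : MvPolynomial (Fin 2) ℂ) h ≠ 0 := by
      intro h0
      rw [h0] at h1
      exact h1 (map_zero _)
    refine smcLoc_sh hh hne2 hz1 fun m hm hne' => ?_
    have e3 : translate 0 (X 0 ^ 2 * X 1 + C γ + C (∑ i, (h i).eval (z i)) :
        MvPolynomial (Fin 2) ℂ) = X 0 ^ 2 * X 1 := by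
      rw [translate_zero, add_assoc, ← C_add, hz2, C_0, add_zero]
    rw [e3] at hne' ⊢
    refine smcLoc_susp le_rfl ?_ (fun i => ?_) (by omega) hm hne'
    · rw [hev]
      simp
    · have hho : (X 0 ^ 2 * X 1 : MvPolynomial (Fin 2) ℂ).IsHomogeneous 3 :=
        ((isHomogeneous_X ℂ 0).pow 2).mul (isHomogeneous_X ℂ 1)
      exact hho.coeff_eq_zero (by simp)
  · obtain ⟨h1, h2⟩ := hess_cV hp
    unfold CR.cV
    simp [h1]

/-- **Ternary cubic forms plus one-variable polynomials, global version.** -/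
theorem smcGlob_sh_cubic {c : MvPolynomial (Fin 3) ℂ} (hc : c.IsHomogeneous 3) {γ : ℂ}
    {h : Fin r → Polynomial ℂ} (hh : ∀ i, 0 < (h i).natDegree) (hne : sh (c + C γ) h ≠ 0) :
    SmcGlob (sh (c + C γ) h) := by
  have hX : ∀ i : Fin 3, (X i : MvPolynomial (Fin 3) ℂ).IsHomogeneous 1 := isHomogeneous_X ℂ
  have hT : ∀ a b, (CR.cT a b).IsHomogeneous 3 := by
    intro a b
    unfold CR.cT
    exact ((((hX 0).mul (hX 1)).mul (hX 2)).add
      (((isHomogeneous_C _ a).mul ((hX 0).pow 3)))).add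
      ((isHomogeneous_C _ b).mul ((hX 1).pow 3))
  have hQ : CR.cQ.IsHomogeneous 3 := by
    unfold CR.cQ
    exact (((hX 0).pow 2).mul (hX 2)).add ((hX 1).pow 3)
  have hS : CR.cS.IsHomogeneous 3 := by
    unfold CR.cS
    exact (((hX 0).pow 2).mul (hX 2)).add ((hX 0).mul ((hX 1).pow 2))
  have hloc : ∀ c' : MvPolynomial (Fin 3) ℂ, c'.IsHomogeneous 3 → ∀ m : Fin r → ℕ,
      (∀ i, 2 ≤ m i) → sg c' m ≠ 0 → SmcLoc (sg c' m) :=
    fun c' hc' m hm h1 => smcLoc_cubic hc' hm h1
  have key : ∀ c', CS.LinEq c c' → sh (c' + C γ) h ≠ 0 := fun c' h1 =>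
    ne_zero_of_linEq (linEq_sh (linEq_add_C h1 γ) h) hne
  rcases cases_cubic hc with h1 | ⟨a, b, h1⟩ | h1 | h1 | h1 | h1 | h1 | h1
  · exact smcGlob_sh_point hc hh hne (hloc c hc) fun p hp => hess_smooth hc h1 hp
  · exact smcGlob_of_linEq (linEq_sh (linEq_add_C h1 γ) h) (smcGlob_sh_point (hT a b) hh
      (key _ h1) (hloc _ (hT a b)) fun p hp => hess_cT hp)
  · exact smcGlob_of_linEq (linEq_sh (linEq_add_C h1 γ) h) (smcGlob_sh_point hQ hh
      (key _ h1) (hloc _ hQ) fun p hp => hess_cQ hp)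
  · exact smcGlob_of_linEq (linEq_sh (linEq_add_C h1 γ) h) (smcGlob_sh_point hS hh
      (key _ h1) (hloc _ hS) fun p hp => hess_cS hp)
  · exact smcGlob_of_linEq (linEq_sh (linEq_add_C h1 γ) h) (smcGlob_sh_cV hh (key _ h1))
  · exact smcGlob_of_linEq (linEq_sh (linEq_add_C h1 γ) h) (smcGlob_sh_sqh hh (key _ h1)
      isConstr_01 sqh_cU1 fun p hp => ⟨hess_cU1 hp, by
        obtain ⟨h2, h3⟩ := hess_cU1 hp
        unfold CR.cU
        simp [h2, h3]⟩)
  · exact smcGlob_of_linEq (linEq_sh (linEq_add_C h1 γ) h) (smcGlob_sh_sqh hh (key _ h1)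
      isConstr_0 sqh_cU0 fun p hp => ⟨hess_cU0 hp, by
        have h2 := hess_cU0 hp
        unfold CR.cU
        simp [h2]⟩)
  · subst h1
    exact smcGlob_sh_sqh hh hne IsConstr.univ sqh_zero fun p _ => ⟨Set.mem_univ p, map_zero _⟩

end SS

open SS in
/-- **The strong monodromy conjecture, global version**, for all `g(x, y, z) + ∑ h_i(u_i)`,
`deg g ≤ 3`, `h_i` nonconstant polynomials in one variable. -/
theorem SmcGlob.of_sumThree {r : ℕ} {g : MvPolynomial (Fin 3) ℂ} (hd : g.totalDegree ≤ 3)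
    {h : Fin r → Polynomial ℂ} (hh : ∀ i, 0 < (h i).natDegree) (hne : SS.sh g h ≠ 0) :
    SmcGlob (SS.sh g h) := by
  by_cases hA : ∃ p, (∀ i, eval p (pderiv i g) = 0) ∧ YG.hessAt g p = 0
  · obtain ⟨p, h1, h2⟩ := hA
    refine SE3.smcGlob_of_translate (Fin.append p 0) ?_
    have hne' := translate_ne_zero hne (Fin.append p 0)
    rw [translate_sh] at hne' ⊢
    have e1 : translate p g = (translate p g - C (eval p g)) + C (eval p g) := by ring
    rw [e1] at hne' ⊢
    refine smcGlob_sh_cubic (SE3.isHomogeneous_three ?_ ?_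
      (fun i => ?_) fun i j => ?_) hh hne'
    · refine (totalDegree_sub _ _).trans ?_
      rw [totalDegree_C]
      exact max_le ((D5.totalDegree_translate_le p g).trans hd) (by norm_num)
    · rw [coeff_sub, SE3.coeff_zero_tr, coeff_C, if_pos rfl, sub_self]
    · rw [map_sub, pderiv_C, sub_zero, pderiv_translate, SE3.coeff_zero_tr, h1]
    · rw [map_sub, pderiv_C, sub_zero, pderiv_translate, pderiv_translate, SE3.coeff_zero_tr]
      exact congrFun (congrFun h2 i) j
  · push Not at hA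
    refine SmcGlob.of_sumG (by norm_num) hh hne fun p z _ h1 _ => ?_
    have := SE3.one_le_rank (hA p h1)
    omega

open SS in
/-- **The strong monodromy conjecture, local version**, for all `g(x, y, z) + ∑ h_i(u_i)`,
`deg g ≤ 3`. -/
theorem SmcLoc.of_sumThree {r : ℕ} {g : MvPolynomial (Fin 3) ℂ} (hd : g.totalDegree ≤ 3)
    {h : Fin r → Polynomial ℂ} (hh : ∀ i, 0 < (h i).natDegree) (hne : SS.sh g h ≠ 0)
    (h0 : coeff 0 (SS.sh g h) = 0) : SmcLoc (SS.sh g h) := by
  classical
  by_cases hsm : ∃ i, coeff (Finsupp.single i 1) (sh g h) ≠ 0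
  · obtain ⟨i, hi⟩ := hsm
    exact SU.smcLoc_smooth h0 hi
  push Not at hsm
  have hPc : ∀ i, eval 0 (pderiv i (sh g h)) = 0 := by
    intro i
    rw [← hev, coeff_pderiv, zero_add, hsm, zero_mul]
  have e0 : (Fin.append (0 : Fin 3 → ℂ) (0 : Fin r → ℂ)) = 0 := by
    funext j
    refine Fin.addCases (fun j => ?_) (fun i => ?_) j
    · rw [Fin.append_left]
      rfl
    · rw [Fin.append_right]
      rfl
  have hz : ∀ i, (Polynomial.derivative (h i)).eval ((0 : Fin r → ℂ) i) = 0 := fun i => by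
    have := eval_pderiv_natAdd_sh g h 0 i
    rw [hPc] at this
    exact this.symm
  have h3 : eval 0 g + ∑ i, (h i).eval ((0 : Fin r → ℂ) i) = 0 := by
    rw [hev, eval_sh] at h0
    exact h0
  have key := smcLoc_sh hh hne hz (p := 0) fun m' hm' hne' => by
    have hm0 : ∀ i, 0 < m' i := fun i => by have := hm' i; omega
    refine smcLoc_three ?_ hm0 hne' ?_
    · rw [translate_zero]
      refine (totalDegree_add _ _).trans ?_
      rw [totalDegree_C]
      exact max_le hd (by norm_num)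
    · rw [coeff_zero_sg _ hm0, SE3.coeff_zero_tr, map_add, eval_C, h3]
  rwa [e0, translate_zero] at key

end MPb07157
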