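import Pool.Agent.Lib.MP_b07157_agSY.LocT
import Pool.Agent.Lib.MP_b07157_agSG3.Sum3

/-!
# Sums of quartic polynomials in three variables and one-variable polynomials, global version
-/

noncomputable section

namespace MPb07157

open MvPolynomial QH

theorem NodCond.ne_zero {c : MvPolynomial (Fin 3) ℂ} (h : NodCond c) : c ≠ 0 := by
  rintro rfl
  obtain ⟨M, α, β, -, h⟩ := h
  have h1 := h ![1, 1, 0]
  have h2 := h ![1, 1, 1]
  simp at h1 h2
  have h3 : (1 : ℂ) = 0 := by linear_combination h1 - h2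
  exact one_ne_zero h3

/-- The global version for `f = g(x, y, z) + ∑ h_i(u_i)`, `deg g ≤ 4`, if the local version is known
for the suspensions of the germs of multiplicity three and degree at most four which satisfy `R`. -/
theorem SmcGlob.of_sum3R {r : ℕ} {g : MvPolynomial (Fin 3) ℂ} {h : Fin r → Polynomial ℂ}
    (hh : ∀ i, 0 < (h i).natDegree) (hne : SS.sh g h ≠ 0) (hd : g.totalDegree ≤ 4)
    {R : MvPolynomial (Fin 3) ℂ → Prop} (hR0 : ∀ c, R c → c ≠ 0)
    (hR : ∀ G : MvPolynomial (Fin 3) ℂ, G.totalDegree ≤ 4 →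
      (∀ j < 3, homogeneousComponent j G = 0) → R (homogeneousComponent 3 G) →
      ∀ m : Fin r → ℕ, (∀ i, 2 ≤ m i) → SmcLoc (SS.sg G m))
    (h3 : ∀ (p : Fin 3 → ℂ) (z : Fin r → ℂ), eval p g + ∑ i, (h i).eval (z i) = 0 →
      (∀ i, eval p (pderiv i g) = 0) → (∀ i, (Polynomial.derivative (h i)).eval (z i) = 0) →
      YG.hessAt g p ≠ 0 ∨ R (homogeneousComponent 3 (translate p g))) : SmcGlob (SS.sh g h) := by
  have key : ∀ z : Fin r → ℂ, (∀ i, (Polynomial.derivative (h i)).eval (z i) = 0) →
      ∀ p ∈ QG.Tr (g + C (∑ i, (h i).eval (z i))),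
        R (homogeneousComponent 3 (translate p (g + C (∑ i, (h i).eval (z i))))) := by
    intro z hz p hp
    obtain ⟨p0, p1, p2⟩ := hp
    rw [SG3.translate_add_C, SG3.homogeneousComponent_add_C _ _ (by norm_num)]
    refine (h3 p z ?_ (fun i => ?_) hz).resolve_left fun hH => hH ?_
    · rw [map_add, eval_C] at p0
      exact p0
    · rw [← SS.pderiv_add_C g (∑ i, (h i).eval (z i))]
      exact p1 i
    · ext i j
      have := p2 i j
      rw [SS.pderiv_add_C] at this
      exact this
  refine SmcGlob.of_sumQ hh hne hd (fun z hz p hp => ?_) fun z hz p hp m hm => ?_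
  · rw [third_iff]
    exact hR0 _ (key z hz p hp)
  · refine hR _ ?_ (t3_iff.1 hp) (key z hz p hp) m hm
    exact (D5.totalDegree_translate_le p _).trans
      ((totalDegree_add _ _).trans (max_le hd (by rw [totalDegree_C]; omega)))

/-- **The strong monodromy conjecture, global version**, for `f = g(x, y, z) + ∑ h_i(u_i)`, `h_i`
nonconstant polynomials in one variable, `deg g ≤ 4`, where at each critical zero `(p, z)` of `f` the
Hessian matrix of `g` is not zero, or the part of degree three of `g(p + x)` satisfies `TriCond` or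
`NodCond` (no finiteness condition). -/
theorem SmcGlob.of_sum3u {r : ℕ} {g : MvPolynomial (Fin 3) ℂ} {h : Fin r → Polynomial ℂ}
    (hh : ∀ i, 0 < (h i).natDegree) (hne : SS.sh g h ≠ 0) (hd : g.totalDegree ≤ 4)
    (h3 : ∀ (p : Fin 3 → ℂ) (z : Fin r → ℂ), eval p g + ∑ i, (h i).eval (z i) = 0 →
      (∀ i, eval p (pderiv i g) = 0) → (∀ i, (Polynomial.derivative (h i)).eval (z i) = 0) →
      YG.hessAt g p ≠ 0 ∨ TriCond (homogeneousComponent 3 (translate p g)) ∨
        NodCond (homogeneousComponent 3 (translate p g))) : SmcGlob (SS.sh g h) :=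
  SmcGlob.of_sum3R hh hne hd (R := fun c => TriCond c ∨ NodCond c)
    (fun _ hc => hc.elim (fun h => h.1) fun h => h.ne_zero)
    (fun _ hG _ hc _ hm => SmcLoc.of_susp3T hG (Or.inr hc) fun i => by have := hm i; omega) h3

end MPb07157
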