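import Pool.Agent.Lib.MP_b07157_agSY.C

/-!
# Sums with one-variable polynomials, global version
-/

noncomputable section

namespace MPb07157

open MvPolynomial

namespace SS

variable {n r : ℕ}

theorem isConstr_zt {W : Set (Fin n → ℂ)} (hW : IsConstr W) (z : Fin r → ℂ) :
    IsConstr (zt W z) := by
  have h1 : IsConstr {x : Fin (n + r) → ℂ | (fun i => x (Fin.castAdd r i)) ∈ W} := by
    have h := hW.preimage (fun i : Fin n => (X (Fin.castAdd r i) : MvPolynomial (Fin (n + r)) ℂ))
    have e : polyMap (fun i : Fin n => (X (Fin.castAdd r i) : MvPolynomial (Fin (n + r)) ℂ)) ⁻¹' W =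
        {x : Fin (n + r) → ℂ | (fun i => x (Fin.castAdd r i)) ∈ W} := by
      ext x
      unfold polyMap
      simp only [Set.mem_preimage, eval_X, Set.mem_setOf_eq]
    rwa [e] at h
  refine isConstr_setOf_and h1 ?_
  have h2 := isConstr_forall_mem (Finset.univ : Finset (Fin r))
    (fun i (x : Fin (n + r) → ℂ) => eval x (X (Fin.natAdd n i) - C (z i)) = 0)
    (fun i _ => isConstr_eq_zero _)
  have e : {x : Fin (n + r) → ℂ | ∀ i ∈ (Finset.univ : Finset (Fin r)),
      eval x (X (Fin.natAdd n i) - C (z i)) = 0} =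
        {x | ∀ i : Fin r, x (Fin.natAdd n i) = z i} := by
    ext x
    simp only [map_sub, eval_X, eval_C, sub_eq_zero, Set.mem_setOf_eq, Finset.mem_univ,
      forall_const]
  rwa [e] at h2

theorem eq_append (x : Fin (n + r) → ℂ) : x = Fin.append (fun i => x (Fin.castAdd r i))
    (fun i => x (Fin.natAdd n i)) := by
  funext j
  refine Fin.addCases (fun j => ?_) (fun i => ?_) j
  · rw [Fin.append_left]
  · rw [Fin.append_right]

theorem zt_singleton (x : Fin n → ℂ) (z : Fin r → ℂ) : zt {x} z = {Fin.append x z} := by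
  ext y
  constructor
  · rintro ⟨h1, h2⟩
    rw [Set.mem_singleton_iff] at h1 ⊢
    rw [eq_append y, h1]
    congr 1
    funext i
    exact h2 i
  · intro h
    rw [Set.mem_singleton_iff] at h
    subst h
    refine ⟨?_, fun i => ?_⟩
    · rw [Set.mem_singleton_iff]
      funext i
      rw [Fin.append_left]
    · rw [Fin.append_right]

theorem mem_zt {W : Set (Fin n → ℂ)} {p : Fin n → ℂ} (hp : p ∈ W) (z : Fin r → ℂ) :
    (Fin.append p z : Fin (n + r) → ℂ) ∈ zt W z := by
  refine ⟨?_, fun i => by rw [Fin.append_right]⟩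
  have e1 : (fun i => (Fin.append p z : Fin (n + r) → ℂ) (Fin.castAdd r i)) = p := by
    funext i
    rw [Fin.append_left]
  rw [e1]
  exact hp

theorem pderiv_add_C (g : MvPolynomial (Fin n) ℂ) (c : ℂ) (i : Fin n) :
    pderiv i (g + C c) = pderiv i g := by
  rw [map_add, pderiv_C, add_zero]

theorem hessAt_add_C (g : MvPolynomial (Fin n) ℂ) (c : ℂ) (x : Fin n → ℂ) :
    YG.hessAt (g + C c) x = YG.hessAt g x := by
  unfold YG.hessAt
  simp only [pderiv_add_C]

/-- The critical points of `∑ h_i`. -/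
theorem finite_crit {h : Fin r → Polynomial ℂ} (hh : ∀ i, 0 < (h i).natDegree) :
    {z : Fin r → ℂ | ∀ i, (Polynomial.derivative (h i)).eval (z i) = 0}.Finite := by
  have h1 : ∀ i, {w : ℂ | (Polynomial.derivative (h i)).eval w = 0}.Finite := fun i =>
    Polynomial.finite_setOf_isRoot (p := Polynomial.derivative (h i)) fun h0 =>
      (hh i).ne' (Polynomial.natDegree_eq_zero_of_derivative_eq_zero h0)
  refine (Set.Finite.pi (t := fun i => {w : ℂ | (Polynomial.derivative (h i)).eval w = 0}) h1).subset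
    fun z hz => ?_
  exact fun i _ => hz i

/-- The germs at the points where `∑ h_i` is critical. -/
theorem smcLoc_sh {g : MvPolynomial (Fin n) ℂ} {h : Fin r → Polynomial ℂ}
    (hh : ∀ i, 0 < (h i).natDegree) (hne : sh g h ≠ 0) {z : Fin r → ℂ}
    (hz : ∀ i, (Polynomial.derivative (h i)).eval (z i) = 0) {p : Fin n → ℂ}
    (hS : ∀ m : Fin r → ℕ, (∀ i, 2 ≤ m i) →
      sg (translate p (g + C (∑ i, (h i).eval (z i)))) m ≠ 0 →
        SmcLoc (sg (translate p (g + C (∑ i, (h i).eval (z i)))) m)) :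
    SmcLoc (translate (Fin.append p z) (sh g h)) := by
  choose m q hm hq he hm2 using fun i => exists_factor (hh i) (z i)
  have h1 := formEquiv_sh g he hm hq p
  refine SmcLoc.of_formEquivPow one_pos h1 (hS m (fun i => hm2 i (hz i)) fun h0 => ?_)
  obtain ⟨E, u, hE⟩ := h1
  rw [h0, pow_one] at hE
  apply translate_ne_zero hne (Fin.append p z)
  rw [← MvPolynomial.coe_inj, hE, MvPolynomial.coe_zero, map_zero, mul_zero]

end SS

open SS in
/-- **The strong monodromy conjecture, global version**, for `f = g(x) + ∑ h_i(z_i)`, `h_i`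
nonconstant polynomials in one variable, where the critical zeros `(p, z)` of `f` are covered by
finitely many sets along which the conjecture is known for `f` and points at which the Hessian matrix
of `g` has rank at least `n - 2`. -/
theorem SmcGlob.of_sumM {n r : ℕ} (hn : 2 ≤ n) {g : MvPolynomial (Fin n) ℂ}
    {h : Fin r → Polynomial ℂ} (hh : ∀ i, 0 < (h i).natDegree) (hne : SS.sh g h ≠ 0)
    {T : Set (Set (Fin (n + r) → ℂ))} (hT : T.Finite)
    (hTW : ∀ W ∈ T, IsConstr W ∧ MonoAlong (SS.sh g h) W)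
    (hc : ∀ (p : Fin n → ℂ) (z : Fin r → ℂ), eval p g + ∑ i, (h i).eval (z i) = 0 → (∀ i, eval p (pderiv i g) = 0) →
      (∀ i, (Polynomial.derivative (h i)).eval (z i) = 0) →
      (∃ W ∈ T, (Fin.append p z : Fin (n + r) → ℂ) ∈ W) ∨ n ≤ (YG.hessAt g p).rank + 2) :
    SmcGlob (SS.sh g h) := by
  classical
  have key : ∀ z ∈ {z : Fin r → ℂ | ∀ i, (Polynomial.derivative (h i)).eval (z i) = 0},
      ∃ T₁ : Set (Set (Fin (n + r) → ℂ)), T₁.Finite ∧
      (∀ W ∈ T₁, IsConstr W ∧ MonoAlong (sh g h) W) ∧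
      ∀ p, eval p g + ∑ i, (h i).eval (z i) = 0 → (∀ i, eval p (pderiv i g) = 0) →
        n ≤ (YG.hessAt g p).rank + 2 → ∃ W ∈ T₁, (Fin.append p z : Fin (n + r) → ℂ) ∈ W := by
    intro z hz
    choose m q hm hq he hm2 using fun i => exists_factor (hh i) (z i)
    have hm2' : ∀ i, 2 ≤ m i := fun i => hm2 i (hz i)
    have hsu := sh_eq_su g he
    obtain ⟨T₂, hT₂, hTW₂, hcov⟩ := CC.exists_cover_corank' (g + C (∑ i, (h i).eval (z i)))
    refine ⟨(fun W => zt W z) '' T₂, hT₂.image _, ?_, fun p h1 h2 h3 => ?_⟩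
    · rintro _ ⟨W, hW, rfl⟩
      refine ⟨isConstr_zt (hTW₂ W hW).1 z, ?_⟩
      rcases (hTW₂ W hW).2 with ⟨k, w, N, hs⟩ | ⟨x, rfl, -⟩
      · rw [hsu]
        refine MonoAlong.of_sqhAlong (by rw [← hsu]; exact hne) (sqhAlong_sum hs hm2' ?_)
        rintro x ⟨-, hx⟩ i
        rw [eval_aevalX, hx i]
        exact hq i
      · have hzt : (fun W => zt W z) {x} = {(Fin.append x z : Fin (n + r) → ℂ)} :=
          zt_singleton x z
        rw [hzt]
        by_cases hx : ∃ W ∈ T, (Fin.append x z : Fin (n + r) → ℂ) ∈ W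
        · obtain ⟨W, hW, hxW⟩ := hx
          exact (hTW W hW).2.mono (Set.singleton_subset_iff.2 hxW)
        · refine MonoAlong.of_point hne fun h1 h2 => ?_
          have h3 : eval x g + ∑ i, (h i).eval (z i) = 0 := by
            rw [SE3.coeff_zero_tr, eval_sh] at h2
            simp only [Fin.append_left, Fin.append_right] at h2
            exact h2
          by_cases hcr : ∀ i, eval x (pderiv i g) = 0
          · refine smcLoc_sh hh hne hz fun m' hm' hne' => ?_
            refine smcLoc_susp hn ?_ (fun i => ?_) ?_ hm' hne'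
            · rw [SE3.coeff_zero_tr, map_add, eval_C, h3]
            · have h5 := hcr i
              rw [← pderiv_add_C g (∑ i, (h i).eval (z i)), ← SE3.coeff_zero_tr,
                ← pderiv_translate, coeff_pderiv, zero_add] at h5
              simpa using h5
            · rw [CK.hess_translate, hessAt_add_C]
              exact (hc x z h3 hcr hz).resolve_left hx
          · push Not at hcr
            obtain ⟨i, hi⟩ := hcr
            refine SU.smcLoc_smooth h2 (i := Fin.castAdd r i) ?_
            have h4 : eval 0 (pderiv (Fin.castAdd r i)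
                (translate (Fin.append x z) (sh g h))) ≠ 0 := by
              rw [pderiv_translate, D5.eval_translate', zero_add, eval_pderiv_castAdd_sh]
              simp only [Fin.append_left]
              exact hi
            have hev : ∀ {m : ℕ} (f : MvPolynomial (Fin m) ℂ), coeff 0 f = eval 0 f := by
              intro m f
              rw [MB.eval_eq_constantCoeff, constantCoeff_eq, translate_zero]
            rw [← hev, coeff_pderiv, zero_add] at h4
            exact left_ne_zero_of_mul h4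
    · obtain ⟨W, hW, hpW⟩ := hcov p (by rw [map_add, eval_C, h1])
        (fun i => by rw [pderiv_add_C, h2 i]) (by rw [hessAt_add_C]; exact h3)
      exact ⟨_, ⟨W, hW, rfl⟩, mem_zt hpW z⟩
  choose! T₁ hT₁f hT₁W hT₁c using key
  refine SmcGlob.of_corankZ hne (T := T ∪ ⋃ z ∈ {z : Fin r → ℂ |
    ∀ i, (Polynomial.derivative (h i)).eval (z i) = 0}, T₁ z)
    (hT.union ((finite_crit hh).biUnion fun z hz => hT₁f z hz)) ?_ fun P hP hPc => Or.inl ?_
  · rintro W (hW | hW)
    · exact hTW W hW
    · obtain ⟨z, hz, hWz⟩ := Set.mem_iUnion₂.1 hW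
      exact hT₁W z hz W hWz
  · rw [eval_sh] at hP
    have hz : ∀ i, (Polynomial.derivative (h i)).eval (P (Fin.natAdd n i)) = 0 := fun i => by
      rw [← eval_pderiv_natAdd_sh g h]
      exact hPc _
    have hp : ∀ i, eval (fun i => P (Fin.castAdd r i)) (pderiv i g) = 0 := fun i => by
      rw [← eval_pderiv_castAdd_sh g h]
      exact hPc _
    rcases hc (fun i => P (Fin.castAdd r i)) (fun i => P (Fin.natAdd n i)) hP hp hz with
      ⟨W, hW, h1⟩ | hr
    · exact ⟨W, Or.inl hW, by rw [eq_append P]; exact h1⟩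
    · obtain ⟨W, hW, h1⟩ := hT₁c (fun i => P (Fin.natAdd n i)) hz _ hP hp hr
      exact ⟨W, Or.inr (Set.mem_iUnion₂.2 ⟨_, hz, hW⟩), by rw [eq_append P]; exact h1⟩

open SS in
/-- **The strong monodromy conjecture, global version**, for `f = g(x) + ∑ h_i(z_i)`, `h_i`
nonconstant polynomials in one variable, where the Hessian matrix of `g` has rank at least `n - 2` at
the points `p` with `∇g(p) = 0`, `(p, z)` a critical zero of `f` for some `z`. -/
theorem SmcGlob.of_sumG {n r : ℕ} (hn : 2 ≤ n) {g : MvPolynomial (Fin n) ℂ}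
    {h : Fin r → Polynomial ℂ} (hh : ∀ i, 0 < (h i).natDegree) (hne : SS.sh g h ≠ 0)
    (hc : ∀ (p : Fin n → ℂ) (z : Fin r → ℂ), eval p g + ∑ i, (h i).eval (z i) = 0 → (∀ i, eval p (pderiv i g) = 0) →
      (∀ i, (Polynomial.derivative (h i)).eval (z i) = 0) → n ≤ (YG.hessAt g p).rank + 2) :
    SmcGlob (SS.sh g h) :=
  SmcGlob.of_sumM hn hh hne (T := ∅) Set.finite_empty
    (fun _ hW => absurd hW (Set.notMem_empty _)) fun p z h1 h2 h3 => Or.inr (hc p z h1 h2 h3)

open SS in
/-- **The strong monodromy conjecture, global version**, for all `g(x, y) + ∑ h_i(z_i)`. -/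
theorem SmcGlob.of_sumTwo {r : ℕ} {g : MvPolynomial (Fin 2) ℂ}
    {h : Fin r → Polynomial ℂ} (hh : ∀ i, 0 < (h i).natDegree) (hne : SS.sh g h ≠ 0) :
    SmcGlob (SS.sh g h) :=
  SmcGlob.of_sumG le_rfl hh hne fun _ _ _ _ _ => by omega

open SS in
/-- **The strong monodromy conjecture, local version**, for `f = g(x) + ∑ h_i(z_i)`, where the Hessian
matrix of `g` at the origin has rank at least `n - 2` if the origin is a critical point of `g`. -/
theorem SmcLoc.of_sumG {n r : ℕ} (hn : 2 ≤ n) {g : MvPolynomial (Fin n) ℂ}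
    {h : Fin r → Polynomial ℂ} (hh : ∀ i, 0 < (h i).natDegree) (hne : SS.sh g h ≠ 0)
    (h0 : coeff 0 (SS.sh g h) = 0)
    (hc : (∀ i, coeff 0 (pderiv i g) = 0) → n ≤ (YG.hessAt g 0).rank + 2) :
    SmcLoc (SS.sh g h) := by
  classical
  have hev : ∀ {m : ℕ} (f : MvPolynomial (Fin m) ℂ), coeff 0 f = eval 0 f := by
    intro m f
    rw [MB.eval_eq_constantCoeff, constantCoeff_eq, translate_zero]
  by_cases hsm : ∃ i, coeff (Finsupp.single i 1) (sh g h) ≠ 0
  · obtain ⟨i, hi⟩ := hsm
    exact SU.smcLoc_smooth h0 hi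
  push Not at hsm
  have hPc : ∀ i, eval 0 (pderiv i (sh g h)) = 0 := by
    intro i
    rw [← hev, coeff_pderiv, zero_add, hsm, zero_mul]
  have e0 : (Fin.append (0 : Fin n → ℂ) (0 : Fin r → ℂ)) = 0 := by
    funext j
    refine Fin.addCases (fun j => ?_) (fun i => ?_) j
    · rw [Fin.append_left]
      rfl
    · rw [Fin.append_right]
      rfl
  have hz : ∀ i, (Polynomial.derivative (h i)).eval ((0 : Fin r → ℂ) i) = 0 := fun i => by
    have := eval_pderiv_natAdd_sh g h 0 i
    rw [hPc] at this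
    exact this.symm
  have hp : ∀ i, eval 0 (pderiv i g) = 0 := fun i => by
    have := eval_pderiv_castAdd_sh g h 0 i
    rw [hPc] at this
    exact this.symm
  have h3 : eval 0 g + ∑ i, (h i).eval ((0 : Fin r → ℂ) i) = 0 := by
    rw [hev, eval_sh] at h0
    exact h0
  have key := smcLoc_sh hh hne hz (p := 0) fun m' hm' hne' => by
    refine smcLoc_susp hn ?_ (fun i => ?_) ?_ hm' hne'
    · rw [SE3.coeff_zero_tr, map_add, eval_C, h3]
    · have h5 := hp i
      rw [← pderiv_add_C g (∑ i, (h i).eval ((0 : Fin r → ℂ) i)), ← SE3.coeff_zero_tr,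
        ← pderiv_translate, coeff_pderiv, zero_add] at h5
      simpa using h5
    · rw [CK.hess_translate, hessAt_add_C]
      exact hc fun i => by rw [hev]; exact hp i
  rwa [e0, translate_zero] at key

end MPb07157
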