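import Pool.Agent.Lib.MP_b07157_agSY.Main

/-!
# Sums with one-variable polynomials, local version
-/

noncomputable section

namespace MPb07157

open MvPolynomial

open SS in
/-- **The strong monodromy conjecture, local version**, for `f = g(x) + ∑ h_i(z_i)`, if it is known for
`g - g(0) + ∑ z_i^{m_i}`, `m_i ≥ 2`, in case the origin is a critical point of `g`. -/
theorem SmcLoc.of_sumL {n r : ℕ} {g : MvPolynomial (Fin n) ℂ}
    {h : Fin r → Polynomial ℂ} (hh : ∀ i, 0 < (h i).natDegree) (hne : SS.sh g h ≠ 0)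
    (h0 : coeff 0 (SS.sh g h) = 0)
    (hS : ∀ m : Fin r → ℕ, (∀ i, 2 ≤ m i) → (∀ i, coeff 0 (pderiv i g) = 0) →
      SS.sg (g - C (coeff 0 g)) m ≠ 0 → SmcLoc (SS.sg (g - C (coeff 0 g)) m)) :
    SmcLoc (SS.sh g h) := by
  classical
  have hev : ∀ {m : ℕ} (f : MvPolynomial (Fin m) ℂ), coeff 0 f = eval 0 f := by
    intro m f
    rw [MB.eval_eq_constantCoeff, constantCoeff_eq, translate_zero]
  by_cases hsm : ∃ i, coeff (Finsupp.single i 1) (sh g h) ≠ 0
  · obtain ⟨i, hi⟩ := hsm
    exact SU.smcLoc_smooth h0 hi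
  push Not at hsm
  have hPc : ∀ i, eval 0 (pderiv i (sh g h)) = 0 := by
    intro i
    rw [← hev, coeff_pderiv, zero_add, hsm, zero_mul]
  have e0 : (Fin.append (0 : Fin n → ℂ) (0 : Fin r → ℂ)) = 0 := by
    funext j
    refine Fin.addCases (fun j => ?_) (fun i => ?_) j
    · rw [Fin.append_left]
      rfl
    · rw [Fin.append_right]
      rfl
  have hz : ∀ i, (Polynomial.derivative (h i)).eval ((0 : Fin r → ℂ) i) = 0 := fun i => by
    have := eval_pderiv_natAdd_sh g h 0 i
    rw [hPc] at this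
    exact this.symm
  have hp : ∀ i, eval 0 (pderiv i g) = 0 := fun i => by
    have := eval_pderiv_castAdd_sh g h 0 i
    rw [hPc] at this
    exact this.symm
  have h3 : eval 0 g + ∑ i, (h i).eval ((0 : Fin r → ℂ) i) = 0 := by
    rw [hev, eval_sh] at h0
    exact h0
  have e1 : translate 0 (g + C (∑ i, (h i).eval ((0 : Fin r → ℂ) i))) = g - C (coeff 0 g) := by
    rw [translate_zero, hev g, eq_neg_of_add_eq_zero_right h3, C_neg, sub_eq_add_neg]
  have key := smcLoc_sh hh hne hz (p := 0) fun m' hm' hne' => by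
    rw [e1] at hne' ⊢
    exact hS m' hm' (fun i => by rw [hev]; exact hp i) hne'
  rwa [e0, translate_zero] at key

namespace SS

variable {n r : ℕ}

theorem homogeneousComponent_sub_C' (g : MvPolynomial (Fin n) ℂ) (c : ℂ) {j : ℕ}
    (hj : 0 < j) : homogeneousComponent j (g - C c) = homogeneousComponent j g := by
  rw [map_sub, homogeneousComponent_of_mem (isHomogeneous_C (Fin n) c), if_neg hj.ne', sub_zero]

/-- If `g` is not constant, then `g(x) + ∑ h_i(z_i)` is not zero. -/
theorem sh_ne_zero {g : MvPolynomial (Fin n) ℂ} (h : Fin r → Polynomial ℂ) {j : ℕ} (hj : 0 < j)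
    (hg : homogeneousComponent j g ≠ 0) : sh g h ≠ 0 := by
  intro h0
  apply hg
  have h1 : g = C (-∑ i, (h i).eval 0) := by
    refine MvPolynomial.funext fun x => ?_
    have h2 := congrArg (eval (Fin.append x (0 : Fin r → ℂ))) h0
    rw [eval_sh, map_zero] at h2
    simp only [Fin.append_left, Fin.append_right, Pi.zero_apply] at h2
    rw [eval_C]
    exact eq_neg_of_add_eq_zero_left h2
  rw [h1, homogeneousComponent_of_mem (isHomogeneous_C (Fin n) _), if_neg hj.ne']

end SS

end MPb07157
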