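import Pool.Agent.Lib.MP_b07157_agSY.A
import Pool.Agent.Lib.MP_b07157_agSS.B
import Pool.Agent.Lib.MP_b07157_agR.Cor
import Pool.Agent.Lib.MP_b07157_agM.StrR
import Pool.Agent.Lib.MP_b07157_agS.SMain

/-!
# Sums with units: germs
-/

noncomputable section

namespace MPb07157

open MvPolynomial

namespace SS

variable {n r : ℕ}

theorem exists_root_unit {m : ℕ} (c : MvPolynomial (Fin m) ℂ) (hc : coeff 0 c ≠ 0) {e : ℕ}
    (he : 0 < e) : ∃ ρ : MvPowerSeries (Fin m) ℂ, MvPowerSeries.constantCoeff ρ ≠ 0 ∧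
      ρ ^ e = (c : MvPowerSeries (Fin m) ℂ) := by
  obtain ⟨s, hs⟩ := IsAlgClosed.exists_pow_nat_eq (coeff 0 c) he
  have hs0 : s ≠ 0 := by
    rintro rfl
    rw [zero_pow he.ne'] at hs
    exact hc hs.symm
  obtain ⟨H, hH, hHe⟩ := ARL.exists_root he (U := (MvPowerSeries.C (coeff 0 c)⁻¹ *
    (c : MvPowerSeries (Fin m) ℂ))) (by
      rw [map_mul, MvPowerSeries.constantCoeff_C, ← MvPowerSeries.coeff_zero_eq_constantCoeff_apply,
        MvPolynomial.coeff_coe, inv_mul_cancel₀ hc])
  refine ⟨MvPowerSeries.C s * H, ?_, ?_⟩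
  · rw [map_mul, MvPowerSeries.constantCoeff_C, hH, mul_one]
    exact hs0
  · rw [mul_pow, hHe, ← map_pow, hs, ← mul_assoc, ← map_mul, mul_inv_cancel₀ hc, map_one, one_mul]

/-- **The germ of a sum with units.** -/
theorem formEquiv_su {g : MvPolynomial (Fin n) ℂ} {c : Fin r → MvPolynomial (Fin (n + r)) ℂ}
    (hc : ∀ i, coeff 0 (c i) ≠ 0) {e : Fin r → ℕ} (he : ∀ i, 0 < e i) :
    FormEquivPow (su g c 0 e) (sg g e) 1 := by
  classical
  choose ρ hρ0 hρ using fun i => exists_root_unit (c i) (hc i) (he i)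
  obtain ⟨a, ha⟩ : ∃ a : Fin (n + r) → MvPowerSeries (Fin (n + r)) ℂ,
    a = Fin.append (fun j => MvPowerSeries.X (Fin.castAdd r j))
      (fun i => MvPowerSeries.X (Fin.natAdd n i) * ρ i) := ⟨_, rfl⟩
  have ha1 : ∀ j, a (Fin.castAdd r j) = MvPowerSeries.X (Fin.castAdd r j) := fun j => by
    rw [ha, Fin.append_left]
  have ha2 : ∀ i, a (Fin.natAdd n i) = MvPowerSeries.X (Fin.natAdd n i) * ρ i := fun i => by
    rw [ha, Fin.append_right]
  obtain ⟨E, hE⟩ := IFT.exists_equiv (a := a)
    (fun i => by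
      refine Fin.addCases (fun j => ?_) (fun i => ?_) i
      · rw [ha1, MvPowerSeries.constantCoeff_X]
      · rw [ha2, map_mul, MvPowerSeries.constantCoeff_X, zero_mul])
    (by
      refine Str.det_ne_zero_of_injective fun v hv => ?_
      funext l
      have h1 := hv l
      refine Fin.addCases (motive := fun l => (∑ j', (Matrix.of fun i j =>
        MvPowerSeries.coeff (Finsupp.single j 1) (a i)) l j' * v j' = 0) → v l = (0 : Fin (n + r) → ℂ) l)
        (fun j h1 => ?_) (fun i h1 => ?_) l h1
      · rw [Finset.sum_eq_single (Fin.castAdd r j)] at h1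
        · rw [Matrix.of_apply, ha1, MvPowerSeries.coeff_X, if_pos rfl, one_mul] at h1
          exact h1
        · intro j' _ hj'
          rw [Matrix.of_apply, ha1, MvPowerSeries.coeff_X, if_neg, zero_mul]
          intro h2
          exact hj' (Finsupp.single_left_injective one_ne_zero h2)
        · intro h
          exact absurd (Finset.mem_univ _) h
      · have hco : ∀ j', MvPowerSeries.coeff (Finsupp.single j' 1) (a (Fin.natAdd n i)) =
            if j' = Fin.natAdd n i then MvPowerSeries.constantCoeff (ρ i) else 0 := by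
          intro j'
          rw [ha2, coeff_single_ps, Derivation.leibniz, map_add, smul_eq_mul, smul_eq_mul, map_mul,
            map_mul, MvPowerSeries.constantCoeff_X, zero_mul, zero_add, Spl.pderiv_X]
          by_cases h : j' = Fin.natAdd n i
          · rw [if_pos h, if_pos h, map_one, mul_one]
          · rw [if_neg h, if_neg h, map_zero, mul_zero]
        rw [Finset.sum_eq_single (Fin.natAdd n i)] at h1
        · rw [Matrix.of_apply, hco, if_pos rfl] at h1
          exact (mul_eq_zero.1 h1).resolve_left (hρ0 i)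
        · intro j' _ hj'
          rw [Matrix.of_apply, hco, if_neg hj', zero_mul]
        · intro h
          exact absurd (Finset.mem_univ _) h)
  refine ⟨E, 1, ?_⟩
  rw [pow_one, Units.val_one, one_mul, hE]
  unfold sg su
  rw [map_add, map_sum, MvPolynomial.coe_add]
  refine congrArg₂ _ ?_ ?_
  · rw [aeval_rename]
    have h1 : a ∘ Fin.castAdd r = fun j => ((X (Fin.castAdd r j) : MvPolynomial (Fin (n + r)) ℂ) :
        MvPowerSeries (Fin (n + r)) ℂ) := by
      funext j
      rw [Function.comp_apply, ha1, MvPolynomial.coe_X]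
    have h2 : (rename (Fin.castAdd r) : MvPolynomial (Fin n) ℂ →ₐ[ℂ]
        MvPolynomial (Fin (n + r)) ℂ) = aeval fun j => X (Fin.castAdd r j) := by
      apply MvPolynomial.algHom_ext
      intro i
      rw [rename_X, aeval_X]
    rw [h1, Str.aeval_coe, h2]
  · rw [← MvPolynomial.coeToMvPowerSeries.ringHom_apply (∑ i, _), map_sum]
    refine Finset.sum_congr rfl fun i _ => ?_
    rw [MvPolynomial.coeToMvPowerSeries.ringHom_apply, MvPolynomial.coe_mul, MvPolynomial.coe_pow,
      map_pow, aeval_X, ha2, mul_pow, hρ, Pi.zero_apply, C_0, sub_zero, MvPolynomial.coe_X, mul_comm]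

end SS

end MPb07157
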