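import Pool.Agent.Lib.MP_b07157_agSY.B
import Pool.Agent.Lib.MP_b07157_agSS.Main

/-!
# Sums with one-variable polynomials
-/

noncomputable section

namespace MPb07157

open MvPolynomial

namespace SS

variable {n r : ℕ}

/-- The polynomial `g(x) + ∑ h_i(z_i)`. -/
def sh (g : MvPolynomial (Fin n) ℂ) (h : Fin r → Polynomial ℂ) : MvPolynomial (Fin (n + r)) ℂ :=
  rename (Fin.castAdd r) g + ∑ i, Polynomial.aeval (X (Fin.natAdd n i)) (h i)

theorem eval_aevalX {m : ℕ} (x : Fin m → ℂ) (j : Fin m) (p : Polynomial ℂ) :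
    eval x (Polynomial.aeval (X j : MvPolynomial (Fin m) ℂ) p) = p.eval (x j) := by
  rw [Polynomial.aeval_def, Polynomial.hom_eval₂, eval_X]
  have h1 : (eval x).comp (algebraMap ℂ (MvPolynomial (Fin m) ℂ)) = RingHom.id ℂ := by
    ext c
    rw [RingHom.comp_apply, algebraMap_eq, eval_C, RingHom.id_apply]
  rw [h1]
  rfl

theorem eval_sh (g : MvPolynomial (Fin n) ℂ) (h : Fin r → Polynomial ℂ) (x : Fin (n + r) → ℂ) :
    eval x (sh g h) = eval (fun i => x (Fin.castAdd r i)) g +
      ∑ i, (h i).eval (x (Fin.natAdd n i)) := by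
  unfold sh
  rw [map_add, eval_rename, map_sum]
  exact congrArg₂ _ rfl (Finset.sum_congr rfl fun i _ => eval_aevalX _ _ _)

theorem natAdd_ne_castAdd (i : Fin r) (j : Fin n) : Fin.natAdd n i ≠ Fin.castAdd r j := by
  intro h
  have := congrArg Fin.val h
  simp at this
  omega

theorem eval_pderiv_castAdd_sh (g : MvPolynomial (Fin n) ℂ) (h : Fin r → Polynomial ℂ)
    (x : Fin (n + r) → ℂ) (j : Fin n) : eval x (pderiv (Fin.castAdd r j) (sh g h)) =
      eval (fun i => x (Fin.castAdd r i)) (pderiv j g) := by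
  unfold sh
  rw [map_add, pderiv_castAdd_rename, map_sum, Finset.sum_eq_zero, add_zero, eval_rename]
  · rfl
  · intro i _
    rw [Derivation.map_aeval, pderiv_X_of_ne (natAdd_ne_castAdd i j), smul_zero]

theorem eval_pderiv_natAdd_sh (g : MvPolynomial (Fin n) ℂ) (h : Fin r → Polynomial ℂ)
    (x : Fin (n + r) → ℂ) (i : Fin r) : eval x (pderiv (Fin.natAdd n i) (sh g h)) =
      (Polynomial.derivative (h i)).eval (x (Fin.natAdd n i)) := by
  classical
  unfold sh
  rw [map_add, pderiv_natAdd_rename, zero_add, map_sum, Finset.sum_eq_single i]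
  · rw [Derivation.map_aeval, pderiv_X_self, smul_eq_mul, mul_one, eval_aevalX]
  · intro j _ hj
    rw [Derivation.map_aeval, pderiv_X_of_ne, smul_zero]
    intro h6
    apply hj
    have := congrArg Fin.val h6
    simp at this
    exact Fin.ext this
  · intro h
    exact absurd (Finset.mem_univ _) h

/-- The factorization of a one-variable polynomial at a point. -/
theorem exists_factor {h : Polynomial ℂ} (hh : 0 < h.natDegree) (z : ℂ) :
    ∃ (m : ℕ) (q : Polynomial ℂ), 0 < m ∧ q.eval z ≠ 0 ∧
      h = Polynomial.C (h.eval z) + (Polynomial.X - Polynomial.C z) ^ m * q ∧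
      ((Polynomial.derivative h).eval z = 0 → 2 ≤ m) := by
  have hne : h - Polynomial.C (h.eval z) ≠ 0 := by
    intro h0
    rw [sub_eq_zero] at h0
    rw [h0, Polynomial.natDegree_C] at hh
    exact absurd hh (lt_irrefl _)
  obtain ⟨q, hq, hdvd⟩ := Polynomial.exists_eq_pow_rootMultiplicity_mul_and_not_dvd
    (h - Polynomial.C (h.eval z)) hne z
  set m := (h - Polynomial.C (h.eval z)).rootMultiplicity z with hm
  have hm0 : 0 < m := by
    rw [hm, Polynomial.rootMultiplicity_pos hne, Polynomial.IsRoot.def, Polynomial.eval_sub,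
      Polynomial.eval_C, sub_self]
  have hqz : q.eval z ≠ 0 := fun h0 => hdvd (Polynomial.dvd_iff_isRoot.2 h0)
  have he : h = Polynomial.C (h.eval z) + (Polynomial.X - Polynomial.C z) ^ m * q := by
    rw [← hq, add_sub_cancel]
  refine ⟨m, q, hm0, hqz, he, fun hd => ?_⟩
  by_contra hcon
  have hm1 : m = 1 := by omega
  rw [hm1, pow_one] at he
  have h1 := congrArg (fun p => (Polynomial.derivative p).eval z) he
  simp at h1
  rw [hd] at h1
  exact hqz h1.symm

theorem sh_eq_su (g : MvPolynomial (Fin n) ℂ) {h : Fin r → Polynomial ℂ} {z : Fin r → ℂ}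
    {m : Fin r → ℕ} {q : Fin r → Polynomial ℂ}
    (he : ∀ i, h i = Polynomial.C ((h i).eval (z i)) +
      (Polynomial.X - Polynomial.C (z i)) ^ m i * q i) :
    sh g h = su (g + C (∑ i, (h i).eval (z i)))
      (fun i => Polynomial.aeval (X (Fin.natAdd n i)) (q i)) z m := by
  refine MvPolynomial.funext fun x => ?_
  rw [eval_sh]
  unfold su
  have h1 : eval x (rename (Fin.castAdd r) (g + C (∑ i, (h i).eval (z i)))) =
      eval (fun i => x (Fin.castAdd r i)) g + ∑ i, (h i).eval (z i) := by
    rw [eval_rename, map_add, eval_C]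
    rfl
  rw [map_add, h1, map_sum, add_assoc, ← Finset.sum_add_distrib]
  refine congrArg₂ _ rfl (Finset.sum_congr rfl fun i _ => ?_)
  conv_lhs => rw [he i]
  rw [map_mul, map_pow, map_sub, eval_X, eval_C, eval_aevalX, Polynomial.eval_add,
    Polynomial.eval_C, Polynomial.eval_mul, Polynomial.eval_pow, Polynomial.eval_sub,
    Polynomial.eval_X, Polynomial.eval_C]
  ring

theorem translate_su (g : MvPolynomial (Fin n) ℂ) (c : Fin r → MvPolynomial (Fin (n + r)) ℂ)
    (z : Fin r → ℂ) (e : Fin r → ℕ) (p : Fin n → ℂ) :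
    translate (Fin.append p z) (su g c z e) =
      su (translate p g) (fun i => translate (Fin.append p z) (c i)) 0 e := by
  refine MvPolynomial.funext fun x => ?_
  rw [D5.eval_translate']
  unfold su
  rw [map_add, map_add, eval_rename, eval_rename, D5.eval_translate', map_sum, map_sum]
  refine congrArg₂ _ ?_ (Finset.sum_congr rfl fun i _ => ?_)
  · congr 2
    funext i
    rw [Function.comp_apply, Pi.add_apply, Pi.add_apply, Fin.append_left]
    rfl
  · rw [map_mul, map_mul, map_pow, map_pow, map_sub, map_sub, eval_X, eval_X, eval_C, eval_C,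
      D5.eval_translate', Pi.add_apply, Fin.append_right, Pi.zero_apply, sub_zero, add_sub_cancel_right]

/-- The germs of `g(x) + ∑ h_i(z_i)`. -/
theorem formEquiv_sh (g : MvPolynomial (Fin n) ℂ) {h : Fin r → Polynomial ℂ} {z : Fin r → ℂ}
    {m : Fin r → ℕ} {q : Fin r → Polynomial ℂ}
    (he : ∀ i, h i = Polynomial.C ((h i).eval (z i)) +
      (Polynomial.X - Polynomial.C (z i)) ^ m i * q i) (hm : ∀ i, 0 < m i)
    (hq : ∀ i, (q i).eval (z i) ≠ 0) (p : Fin n → ℂ) :
    FormEquivPow (translate (Fin.append p z) (sh g h))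
      (sg (translate p (g + C (∑ i, (h i).eval (z i)))) m) 1 := by
  rw [sh_eq_su g he, translate_su]
  refine formEquiv_su (fun i => ?_) hm
  rw [SE3.coeff_zero_tr, eval_aevalX, Fin.append_right]
  exact hq i

end SS

end MPb07157
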