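import Pool.Agent.Lib.MP_b07157_agSY.Loc
import Pool.Agent.Lib.MP_b07157_agQV.Susp3U

/-!
# Sums of quartic polynomials in three variables and one-variable polynomials, local version
-/

noncomputable section

namespace MPb07157

open MvPolynomial

open SS CV in
/-- **The strong monodromy conjecture, local version**, for `f = g(x, y, z) + ∑ h_i(u_i)`, `h_i`
nonconstant polynomials in one variable, `deg g ≤ 4` and `g - g(0)` of multiplicity at most two at the
origin, or of multiplicity three with a tangent cone `TriCond`. -/
theorem SmcLoc.of_sum3 {r : ℕ} {g : MvPolynomial (Fin 3) ℂ} (hd : g.totalDegree ≤ 4)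
    (hm : homogeneousComponent 1 g ≠ 0 ∨ homogeneousComponent 2 g ≠ 0 ∨
      TriCond (homogeneousComponent 3 g)) {h : Fin r → Polynomial ℂ}
    (hh : ∀ i, 0 < (h i).natDegree) : SmcLoc (SS.sh g h) := by
  have hne : sh g h ≠ 0 := by
    rcases hm with hm | hm | ⟨hm, -⟩
    · exact sh_ne_zero h (by norm_num) hm
    · exact sh_ne_zero h (by norm_num) hm
    · exact sh_ne_zero h (by norm_num) hm
  by_cases h0 : coeff 0 (sh g h) = 0
  swap
  · exact smcLoc_of_coeff_ne h0
  refine SmcLoc.of_sumL hh hne h0 fun m hm2 _ _ => SmcLoc.of_susp3' ?_ ?_ fun i => by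
    have := hm2 i
    omega
  · refine (totalDegree_sub _ _).trans ?_
    rw [totalDegree_C]
    exact max_le hd (by norm_num)
  · rw [homogeneousComponent_sub_C' g _ (j := 3) (by norm_num)]
    rcases hm with hm | hm | hm
    · exact Or.inl ⟨1, by norm_num, by
        rw [homogeneousComponent_sub_C' _ _ (by norm_num)]; exact hm⟩
    · exact Or.inl ⟨2, by norm_num, by
        rw [homogeneousComponent_sub_C' _ _ (by norm_num)]; exact hm⟩
    · exact Or.inr hm

end MPb07157
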