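import Pool.Agent.Lib.MP_b07157_agSY.Loc
import Pool.Agent.Lib.MP_b07157_agQV.Sum3
import Pool.Agent.Lib.MP_b07157_agQV.TnG

/-!
# Sums of polynomials in three variables with nodal tangent cones and one-variable polynomials
-/

noncomputable section

namespace MPb07157

open MvPolynomial

namespace QV

open CV

/-- The germs of `g(p + x) - g(p) + ∑ z_i^{e_i}` where the Hessian matrix of `g` is not zero, or the
tangent cone is nodal. -/
theorem smcLoc_sg_nod {r : ℕ} {g : MvPolynomial (Fin 3) ℂ} {p : Fin 3 → ℂ} {c : ℂ}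
    (h0 : eval p g + c = 0) (h1 : ∀ i, eval p (pderiv i g) = 0)
    (h : YG.hessAt g p ≠ 0 ∨ NodCond (homogeneousComponent 3 (translate p g))) {e : Fin r → ℕ}
    (he : ∀ i, 2 ≤ e i) (hne : SS.sg (translate p (g + C c)) e ≠ 0) :
    SmcLoc (SS.sg (translate p (g + C c)) e) := by
  have g0 : coeff 0 (translate p (g + C c)) = 0 := by
    rw [SE3.coeff_zero_tr, map_add, eval_C, h0]
  have g1 : ∀ i, coeff 0 (pderiv i (translate p (g + C c))) = 0 := fun i => by
    rw [pderiv_translate, SE3.coeff_zero_tr, SS.pderiv_add_C, h1]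
  by_cases hH : YG.hessAt g p = 0
  · have hN := h.resolve_left (fun h => h hH)
    refine SmcLoc.of_suspNod (SE4.low_of_derivatives g0 g1 fun i j => ?_) ?_ fun i => by
      have := he i
      omega
    · rw [pderiv_translate, pderiv_translate, SE3.coeff_zero_tr, SS.pderiv_add_C]
      exact congrFun (congrFun hH i) j
    · rw [hc_three_translate_add_C]
      exact hN
  · refine SS.smcLoc_susp (by norm_num) g0 (fun i => ?_) ?_ he hne
    · have h5 := g1 i
      rw [coeff_pderiv, zero_add] at h5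
      simpa using h5
    · rw [CK.hess_translate, SS.hessAt_add_C]
      have := SE3.one_le_rank hH
      omega

/-- The same for degree at most four, with all tangent cones but a conic and a tangent line. -/
theorem smcLoc_sg_t {r : ℕ} {g : MvPolynomial (Fin 3) ℂ} (hd : g.totalDegree ≤ 4)
    {p : Fin 3 → ℂ} {c : ℂ} (h0 : eval p g + c = 0) (h1 : ∀ i, eval p (pderiv i g) = 0)
    (h : YG.hessAt g p ≠ 0 ∨ TriCond (homogeneousComponent 3 (translate p g)) ∨
      NodCond (homogeneousComponent 3 (translate p g))) {e : Fin r → ℕ}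
    (he : ∀ i, 2 ≤ e i) (hne : SS.sg (translate p (g + C c)) e ≠ 0) :
    SmcLoc (SS.sg (translate p (g + C c)) e) := by
  rcases h with h | h | h
  · exact smcLoc_sg_nod h0 h1 (Or.inl h) he hne
  · refine SmcLoc.of_susp3' ?_ (Or.inr ?_) fun i => by
      have := he i
      omega
    · refine (D5.totalDegree_translate_le p _).trans ((totalDegree_add _ _).trans ?_)
      rw [totalDegree_C]
      exact max_le hd (by norm_num)
    · rw [hc_three_translate_add_C]
      exact h
  · exact smcLoc_sg_nod h0 h1 (Or.inr h) he hne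

end QV

open CV SS QV in
/-- The global version for `f = g(x_1, x_2, x_3) + ∑ h_i(z_i)`, if at each critical zero `(p, z)` the
Hessian matrix of `g` at `p` is not zero, or `p` is in a finite set and the suspensions of the germ of
`g - g(p)` at `p` are known. -/
theorem SmcGlob.of_sum3P {r : ℕ} {g : MvPolynomial (Fin 3) ℂ}
    {h : Fin r → Polynomial ℂ} (hh : ∀ i, 0 < (h i).natDegree) (hne : SS.sh g h ≠ 0)
    (P : Finset (Fin 3 → ℂ)) {Q : (Fin 3 → ℂ) → Prop}
    (hQ : ∀ (p : Fin 3 → ℂ) (c : ℂ), Q p → eval p g + c = 0 → (∀ i, eval p (pderiv i g) = 0) →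
      ∀ e : Fin r → ℕ, (∀ i, 2 ≤ e i) → SS.sg (translate p (g + C c)) e ≠ 0 →
        SmcLoc (SS.sg (translate p (g + C c)) e))
    (hc : ∀ (p : Fin 3 → ℂ) (z : Fin r → ℂ), eval p g + ∑ i, (h i).eval (z i) = 0 →
      (∀ i, eval p (pderiv i g) = 0) → (∀ i, (Polynomial.derivative (h i)).eval (z i) = 0) →
      YG.hessAt g p ≠ 0 ∨ (p ∈ P ∧ Q p)) : SmcGlob (SS.sh g h) := by
  classical
  obtain ⟨S, hS⟩ : ∃ S : Set ((Fin 3 → ℂ) × (Fin r → ℂ)), S = {q | (q.1 ∈ P ∧ Q q.1) ∧
      eval q.1 g + ∑ i, (h i).eval (q.2 i) = 0 ∧ (∀ i, eval q.1 (pderiv i g) = 0) ∧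
      ∀ i, (Polynomial.derivative (h i)).eval (q.2 i) = 0} := ⟨_, rfl⟩
  have hSf : S.Finite := by
    refine Set.Finite.subset ((P.finite_toSet).prod (finite_crit hh)) ?_
    rintro ⟨p, z⟩ hq
    rw [hS] at hq
    exact ⟨hq.1.1, hq.2.2.2⟩
  refine SmcGlob.of_sumM (by norm_num) hh hne
    (T := (fun q => ({(Fin.append q.1 q.2 : Fin (3 + r) → ℂ)} : Set (Fin (3 + r) → ℂ))) '' S)
    (hSf.image _) ?_ fun p z h1 h2 h3 => ?_
  · rintro _ ⟨⟨p, z⟩, hq, rfl⟩
    rw [hS] at hq
    obtain ⟨⟨-, h0⟩, h1, h2, h3⟩ := hq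
    refine ⟨isConstr_point _, MonoAlong.of_point hne fun _ _ => ?_⟩
    exact smcLoc_sh hh hne h3 fun m hm hne' => hQ p _ h0 h1 h2 m hm hne'
  · rcases hc p z h1 h2 h3 with hr | hP
    · refine Or.inr ?_
      have := SE3.one_le_rank hr
      omega
    · exact Or.inl ⟨_, ⟨(p, z), by rw [hS]; exact ⟨hP, h1, h2, h3⟩, rfl⟩,
        Set.mem_singleton _⟩

open QV in
/-- **The strong monodromy conjecture, global version**, for `f = g(x_1, x_2, x_3) + ∑ h_i(z_i)`, `g`
of any degree, `h_i` nonconstant polynomials in one variable, where for each critical zero `(p, z)` of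
`f` the Hessian matrix of `g` at `p` is not zero, or `p` is in a finite set and the part of degree
three of `g(p + x)` is a plane cubic with a node. -/
theorem SmcGlob.of_sumT {r : ℕ} {g : MvPolynomial (Fin 3) ℂ}
    {h : Fin r → Polynomial ℂ} (hh : ∀ i, 0 < (h i).natDegree) (hne : SS.sh g h ≠ 0)
    (P : Finset (Fin 3 → ℂ))
    (hc : ∀ (p : Fin 3 → ℂ) (z : Fin r → ℂ), eval p g + ∑ i, (h i).eval (z i) = 0 →
      (∀ i, eval p (pderiv i g) = 0) → (∀ i, (Polynomial.derivative (h i)).eval (z i) = 0) →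
      YG.hessAt g p ≠ 0 ∨ (p ∈ P ∧ NodCond (homogeneousComponent 3 (translate p g)))) :
    SmcGlob (SS.sh g h) :=
  SmcGlob.of_sum3P hh hne P (Q := fun p => NodCond (homogeneousComponent 3 (translate p g)))
    (fun _ _ hq h0 h1 _ he hne' => smcLoc_sg_nod h0 h1 (Or.inr hq) he hne') hc

open QV in
/-- **The strong monodromy conjecture, global version**, for `f = g(x_1, x_2, x_3) + ∑ h_i(z_i)`,
`deg g ≤ 4`, where for each critical zero `(p, z)` of `f` the Hessian matrix of `g` at `p` is not zero,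
or `p` is in a finite set and the part of degree three of `g(p + x)` satisfies `TriCond` or
`NodCond`. -/
theorem SmcGlob.of_sum3t {r : ℕ} {g : MvPolynomial (Fin 3) ℂ} (hd : g.totalDegree ≤ 4)
    {h : Fin r → Polynomial ℂ} (hh : ∀ i, 0 < (h i).natDegree) (hne : SS.sh g h ≠ 0)
    (P : Finset (Fin 3 → ℂ))
    (hc : ∀ (p : Fin 3 → ℂ) (z : Fin r → ℂ), eval p g + ∑ i, (h i).eval (z i) = 0 →
      (∀ i, eval p (pderiv i g) = 0) → (∀ i, (Polynomial.derivative (h i)).eval (z i) = 0) →
      YG.hessAt g p ≠ 0 ∨ (p ∈ P ∧ (TriCond (homogeneousComponent 3 (translate p g)) ∨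
        NodCond (homogeneousComponent 3 (translate p g))))) :
    SmcGlob (SS.sh g h) :=
  SmcGlob.of_sum3P hh hne P (Q := fun p => TriCond (homogeneousComponent 3 (translate p g)) ∨
    NodCond (homogeneousComponent 3 (translate p g)))
    (fun _ _ hq h0 h1 _ he hne' => smcLoc_sg_t hd h0 h1 (Or.inr hq) he hne') hc

open CV SS QV in
/-- The local version for `f = g(x_1, x_2, x_3) + ∑ h_i(z_i)`. -/
theorem SmcLoc.of_sum3P {r : ℕ} {g : MvPolynomial (Fin 3) ℂ}
    {h : Fin r → Polynomial ℂ} (hh : ∀ i, 0 < (h i).natDegree) (hne : SS.sh g h ≠ 0)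
    (h0 : coeff 0 (SS.sh g h) = 0)
    (hS : (∀ i, coeff 0 (pderiv i g) = 0) → ∀ e : Fin r → ℕ, (∀ i, 2 ≤ e i) →
      SS.sg (translate 0 (g + C (-coeff 0 g))) e ≠ 0 →
        SmcLoc (SS.sg (translate 0 (g + C (-coeff 0 g))) e)) : SmcLoc (SS.sh g h) := by
  refine SmcLoc.of_sumL hh hne h0 fun m hm hcr hne' => ?_
  have e1 : g - C (coeff 0 g) = translate 0 (g + C (-coeff 0 g)) := by
    rw [translate_zero, C_neg, sub_eq_add_neg]
  rw [e1] at hne' ⊢
  exact hS hcr m hm hne'

open CV QV in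
/-- **The strong monodromy conjecture, local version**, for `f = g(x_1, x_2, x_3) + ∑ h_i(z_i)`, `g` of
any degree, `h_i` nonconstant, where the first or the second derivatives of `g` do not all vanish at
the origin, or the part of degree three of `g` is a plane cubic with a node. -/
theorem SmcLoc.of_sumT {r : ℕ} {g : MvPolynomial (Fin 3) ℂ}
    {h : Fin r → Polynomial ℂ} (hh : ∀ i, 0 < (h i).natDegree) (hne : SS.sh g h ≠ 0)
    (h0 : coeff 0 (SS.sh g h) = 0)
    (hc : (∀ i, coeff 0 (pderiv i g) = 0) →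
      YG.hessAt g 0 ≠ 0 ∨ NodCond (homogeneousComponent 3 g)) : SmcLoc (SS.sh g h) := by
  refine SmcLoc.of_sum3P hh hne h0 fun hcr m hm hne' => ?_
  refine smcLoc_sg_nod (by rw [coeff_zero_eq_eval, add_neg_cancel])
    (fun i => by rw [← coeff_zero_eq_eval]; exact hcr i) ?_ hm hne'
  rw [translate_zero]
  exact hc hcr

open CV QV in
/-- **The strong monodromy conjecture, local version**, for `f = g(x_1, x_2, x_3) + ∑ h_i(z_i)`,
`deg g ≤ 4`, where the first or the second derivatives of `g` do not all vanish at the origin, or the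
part of degree three of `g` satisfies `TriCond` or `NodCond`. -/
theorem SmcLoc.of_sum3t {r : ℕ} {g : MvPolynomial (Fin 3) ℂ} (hd : g.totalDegree ≤ 4)
    {h : Fin r → Polynomial ℂ} (hh : ∀ i, 0 < (h i).natDegree) (hne : SS.sh g h ≠ 0)
    (h0 : coeff 0 (SS.sh g h) = 0)
    (hc : (∀ i, coeff 0 (pderiv i g) = 0) → YG.hessAt g 0 ≠ 0 ∨
      TriCond (homogeneousComponent 3 g) ∨ NodCond (homogeneousComponent 3 g)) :
    SmcLoc (SS.sh g h) := by
  refine SmcLoc.of_sum3P hh hne h0 fun hcr m hm hne' => ?_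
  refine smcLoc_sg_t hd (by rw [coeff_zero_eq_eval, add_neg_cancel])
    (fun i => by rw [← coeff_zero_eq_eval]; exact hcr i) ?_ hm hne'
  rw [translate_zero]
  exact hc hcr

end MPb07157
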